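import Pool.Agent.Q316.EM.Bridge
import Pool.Agent.Results.MP_767d8d_lc.ModesDiffer

/-!
# MP_99d1ae_lc: the place of `EM₁`

`M ⊊ EM₁ ⊊ RE`, and `EM₁` is not closed under intersection with regular sets, so it is none of the
families `CF`, `M`, `CS`, `RE`.

The grammars of all degrees are defined in `Pool/Agent/Q316/EM/Deg.lean`, the matrix grammars in
`Pool/Agent/Q316/EM/Bridge.lean`. The language `LL` and the automaton `dl` with the set `Fin7` of
final states are in `Pool/Agent/Results/MP_767d8d_lc/ModesDiffer.lean`.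
-/

set_option autoImplicit false

namespace Pool.Agent.Results.MP_99d1ae_lc.StrictInclusions

open List Pool.Agent.Q316.EM Pool.Agent.Q316.EM.Deg
open Pool.Agent.Results.MP_767d8d_lc.ModesDiffer (LL TT GG dl Fin7 wt weights sub_gg gg_sub)

/-- The languages over `T` of the even matrix grammars of degree `n` under mode 1. -/
def EM1 (n : ℕ) (T : Type) : Set (Set (List T)) :=
  {L | ∃ G : EvenGrammar T, G.n = n ∧ L = G.lang true}

theorem mat_sub_em1 (T : Type) : MAT T ⊆ EM1 2 T := by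
  rintro L ⟨G, rfl⟩
  refine ⟨DD (toEven (toEG G)), rfl, ?_⟩
  rw [dd_lang, toEven_lang]
  exact Set.Subset.antisymm (mat_sub G) (mat_sup G)

theorem ll_mem : LL ∈ EM1 2 TT := by
  refine ⟨toEven GG, rfl, ?_⟩
  rw [toEven_lang]
  exact Set.Subset.antisymm sub_gg gg_sub

theorem set_infinite : {n : ℕ | ∃ k : ℕ, n + 2 = 4 * 2 ^ k}.Infinite := by
  refine Set.infinite_of_injective_forall_mem (f := fun k : ℕ => 4 * 2 ^ k - 2) ?_ ?_
  · intro i j hij
    have hi : 1 ≤ 2 ^ i := Nat.one_le_two_pow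
    have hj : 1 ≤ 2 ^ j := Nat.one_le_two_pow
    have : 2 ^ i = 2 ^ j := by
      dsimp only at hij
      omega
    exact Nat.pow_right_injective le_rfl this
  · intro k
    have hi : 1 ≤ 2 ^ k := Nat.one_le_two_pow
    exact ⟨k, by omega⟩

/-- sparse sets contain no infinite arithmetic progression -/
theorem no_progression (a b : ℕ) {u v : ℕ} (hv : 0 < v)
    (hk : ∀ k : ℕ, u + k * v ∈ {n : ℕ | ∃ k : ℕ, n + b = a * 2 ^ k}) : False := by
  obtain ⟨i, hi⟩ := hk (v + 1 + b)
  obtain ⟨j, hj⟩ := hk (v + 2 + b)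
  have h1 : (v + 2 + b) * v = (v + 1 + b) * v + v := by ring
  have h2 : (v + 1 + b) * v = v * v + v + b * v := by ring
  have h3 : b ≤ b * v := Nat.le_mul_of_pos_right b hv
  have h4 : v ≤ v * v := Nat.le_mul_of_pos_left v hv
  rcases lt_or_ge i j with hij | hij
  · have h5 : 2 ^ (i + 1) ≤ 2 ^ j := Nat.pow_le_pow_right (by omega) hij
    have h6 : a * 2 ^ (i + 1) ≤ a * 2 ^ j := Nat.mul_le_mul_left a h5
    have h7 : a * 2 ^ (i + 1) = 2 * (a * 2 ^ i) := by ring
    omega
  · have h5 : a * 2 ^ j ≤ a * 2 ^ i := Nat.mul_le_mul_left a (Nat.pow_le_pow_right (by omega) hij)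
    omega

theorem ll_not_mat : LL ∉ MAT TT := by
  intro h
  obtain ⟨G, hG⟩ := mat_sub_fam h
  have hset : {n : ℕ | ∃ w ∈ G.lang false, w.foldl dl 0 ∈ Fin7 ∧ (w.map wt).sum = n} =
      {n | ∃ k : ℕ, n + 2 = 4 * 2 ^ k} := by
    ext n
    rw [← hG]
    exact weights n
  obtain ⟨u, v, hv, hk⟩ := progression G dl wt (lm := false) (by simp) 0 Fin7
    (by rw [hset]; exact set_infinite)
  rw [hset] at hk
  exact no_progression 4 2 hv hk

/-- The weights of the words of a mode 1 language. -/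
theorem weights_progression {T : Type} [Finite T] (G : EvenGrammar T) (f : T → ℕ)
    (hinf : {n : ℕ | ∃ w ∈ G.lang true, (w.map f).sum = n}.Infinite) :
    ∃ u v : ℕ, 0 < v ∧ ∀ k : ℕ, ∃ w ∈ G.lang true, (w.map f).sum = u + k * v := by
  obtain ⟨u, v, hv, hk⟩ := progression G (σ := Unit) (fun _ _ => ()) f (lm := true)
    (fun _ => inferInstance) () Set.univ (by simpa using hinf)
  refine ⟨u, v, hv, fun k => ?_⟩
  obtain ⟨w, h1, _, h2⟩ := hk k
  exact ⟨w, h1, h2⟩

theorem inter_not : ∀ n : ℕ, {w | w ∈ LL ∧ w.foldl dl 0 ∈ Fin7} ∉ EM1 n TT := by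
  rintro n ⟨G, _, hG⟩
  have hset : {n : ℕ | ∃ w ∈ G.lang true, (w.map wt).sum = n} =
      {n | ∃ k : ℕ, n + 2 = 4 * 2 ^ k} := by
    ext n
    rw [← hG]
    refine Iff.trans ?_ (weights n)
    constructor
    · rintro ⟨w, ⟨h1, h2⟩, h3⟩
      exact ⟨w, h1, h2, h3⟩
    · rintro ⟨w, h1, h2, h3⟩
      exact ⟨w, ⟨h1, h2⟩, h3⟩
  obtain ⟨u, v, hv, hk⟩ := weights_progression G wt (by rw [hset]; exact set_infinite)
  exact no_progression 4 2 hv fun k => by
    rw [← hset]
    exact hk k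

/-- The language of the words over one letter whose length is a power of two. -/
def Pow : Set (List Unit) := {w | ∃ k : ℕ, w.length = 2 ^ k}

theorem sum_ones (w : List Unit) : (w.map fun _ => 1).sum = w.length := by
  induction w with
  | nil => rfl
  | cons a w ih => simp [add_comm]

theorem pow_not (n : ℕ) : Pow ∉ EM1 n Unit := by
  rintro ⟨G, _, hG⟩
  have hset : {n : ℕ | ∃ w ∈ G.lang true, (w.map fun _ => 1).sum = n} =
      {n | ∃ k : ℕ, n + 0 = 1 * 2 ^ k} := by
    ext n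
    rw [← hG]
    constructor
    · rintro ⟨w, ⟨k, hk⟩, rfl⟩
      exact ⟨k, by rw [sum_ones, hk]; ring⟩
    · rintro ⟨k, hk⟩
      refine ⟨replicate n (), ⟨k, ?_⟩, ?_⟩
      · rw [length_replicate]; omega
      · rw [sum_ones, length_replicate]
  have hinf : {n : ℕ | ∃ k : ℕ, n + 0 = 1 * 2 ^ k}.Infinite := by
    refine Set.infinite_of_injective_forall_mem (f := fun k : ℕ => 2 ^ k) ?_ ?_
    · exact Nat.pow_right_injective le_rfl
    · intro k
      exact ⟨k, by ring⟩
  obtain ⟨u, v, hv, hk⟩ := weights_progression G (fun _ => 1) (by rw [hset]; exact hinf)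
  exact no_progression 1 0 hv fun k => by
    rw [← hset]
    exact hk k

theorem pow_computable : ComputablePred fun w : List Unit => w ∈ Pow := by
  have hpow : Primrec₂ ((· ^ ·) : ℕ → ℕ → ℕ) := Primrec₂.unpaired'.1 Nat.Primrec.pow
  have h1 : PrimrecRel fun x y : ℕ => y = 2 ^ x :=
    Primrec.eq.comp Primrec.snd (hpow.comp (Primrec.const 2) Primrec.fst)
  have h2 : PrimrecRel fun n y : ℕ => ∃ x < n, y = 2 ^ x := h1.exists_lt
  have h3 : PrimrecPred fun w : List Unit => ∃ x < w.length + 1, w.length = 2 ^ x :=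
    h2.comp (Primrec.succ.comp Primrec.list_length) Primrec.list_length
  have h4 : (fun w : List Unit => w ∈ Pow) =
      fun w : List Unit => ∃ x < w.length + 1, w.length = 2 ^ x := by
    funext w
    apply propext
    constructor
    · rintro ⟨k, hk⟩
      have : k < 2 ^ k := Nat.lt_two_pow_self
      exact ⟨k, by omega, hk⟩
    · rintro ⟨k, _, hk⟩
      exact ⟨k, hk⟩
  rw [h4]
  exact h3.computablePred

/-- 1. All matrix languages are in `EM₁`, even with degree 2, and 2. the inclusion is proper.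
3. The lengths (and all weights) of the words of a language of `EM₁` contain an infinite arithmetic
progression if they are unbounded; 4. so the decidable language `{a^(2^k)}` is not in `EM₁`.
5. `EM₁` is not closed under intersection with regular sets. -/
theorem result :
    (∀ T : Type, MAT T ⊆ EM1 2 T) ∧
    (LL ∈ EM1 2 TT ∧ LL ∉ MAT TT) ∧
    (∀ (n : ℕ) (T : Type) [Finite T], ∀ L ∈ EM1 n T, ∀ f : T → ℕ,
      {m : ℕ | ∃ w ∈ L, (w.map f).sum = m}.Infinite →
      ∃ u v : ℕ, 0 < v ∧ ∀ k : ℕ, ∃ w ∈ L, (w.map f).sum = u + k * v) ∧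
    (ComputablePred (fun w : List Unit => w ∈ Pow) ∧ ∀ n : ℕ, Pow ∉ EM1 n Unit) ∧
    (LL ∈ EM1 2 TT ∧ ∀ n : ℕ, {w | w ∈ LL ∧ w.foldl dl 0 ∈ Fin7} ∉ EM1 n TT) := by
  refine ⟨mat_sub_em1, ⟨ll_mem, ll_not_mat⟩, ?_, ⟨pow_computable, pow_not⟩, ll_mem, inter_not⟩
  rintro n T _ _ ⟨G, _, rfl⟩ f hinf
  exact weights_progression G f hinf

end Pool.Agent.Results.MP_99d1ae_lc.StrictInclusions
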